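import Pool.Agent.E8helper49.KE.Stm2
import Pool.Agent.E8helper14.KE.SC
import Pool.Agent.E8helper31.KE.TP

/-!
# Project KF (helper49), part T_TP: two commuting representations whose sum is the spin
representation, rank congruent to 2 modulo 4. (The first half is copied from
`Pool/Agent/E8helper31/KE/TP.lean`.)
-/

set_option autoImplicit false

open Matrix

namespace Pool.Agent.E8helper44.KF

open Pool.Agent.E8helper49.KS Pool.Agent.E8helper49.KE
open Pool.Agent.E8helper14.KE (irr part)
open Pool.Agent.E8helper31.KE (half_sq br_anti eq_zero_of_mulVec)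

theorem psi_inj {m : ℕ} {N : Type} [Fintype N] [DecidableEq N] {Γ : Fin m → Matrix N N ℂ}
    {ψ : Matrix N N ℂ} (h : IsSpinE Γ ψ) {b : Matrix N N ℂ} (hb : ψ * b = 0) : b = 0 := by
  let K : Submodule ℂ (N → ℂ) :=
    { carrier := {v | ψ *ᵥ v = 0}
      add_mem' := by
        intro u v hu hv
        change ψ *ᵥ (u + v) = 0
        rw [Matrix.mulVec_add, hu, hv, add_zero]
      zero_mem' := Matrix.mulVec_zero _
      smul_mem' := by
        intro c u hu
        change ψ *ᵥ (c • u) = 0
        rw [Matrix.mulVec_smul, hu, smul_zero] }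
  have hK : ∀ i, ∀ w ∈ K, Γ i *ᵥ w ∈ K := by
    intro i w hw
    change ψ *ᵥ (Γ i *ᵥ w) = 0
    rw [Matrix.mulVec_mulVec, ← h.adj i, ← Matrix.mulVec_mulVec]
    have hw' : ψ *ᵥ w = 0 := hw
    rw [hw', Matrix.mulVec_zero]
  rcases irr h K hK with h0 | h0
  · apply eq_zero_of_mulVec
    intro v
    have h1 : b *ᵥ v ∈ K := by
      change ψ *ᵥ (b *ᵥ v) = 0
      rw [Matrix.mulVec_mulVec, hb, Matrix.zero_mulVec]
    rwa [h0, Submodule.mem_bot] at h1
  · exfalso
    apply h.psi
    apply eq_zero_of_mulVec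
    intro v
    have h1 : v ∈ K := by
      rw [h0]
      trivial
    exact h1

theorem eq_zero_of_part {m : ℕ} {N : Type} [Fintype N] [DecidableEq N] {Γ : Fin m → Matrix N N ℂ}
    {ψ : Matrix N N ℂ} (h : IsSpinE Γ ψ) (ho : om Γ * om Γ = -1)
    (hps : (om Γ)ᵀ * ψ = -(ψ * om Γ)) {s : ℂ} (hs : s * s = -1) {b : Matrix N N ℂ}
    (hbo : b * om Γ = om Γ * b) (hsk : bᵀ * ψ + ψ * b = 0)
    (hb : ∀ v : N → ℂ, om Γ *ᵥ v = s • v → b *ᵥ v = 0) : b = 0 := by
  have h1 : b * (1 - s • om Γ) = 0 := by
    apply eq_zero_of_mulVec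
    intro v
    rw [← Matrix.mulVec_mulVec]
    apply hb
    rw [Matrix.mulVec_mulVec, Matrix.mul_sub, Matrix.mul_one, Matrix.mul_smul, ho, ← Matrix.smul_mulVec]
    congr 1
    rw [smul_sub, smul_smul, hs, smul_neg, neg_smul, one_smul]
    abel
  have h2 : b = s • (b * om Γ) := by
    rw [Matrix.mul_sub, Matrix.mul_one, Matrix.mul_smul, sub_eq_zero] at h1
    exact h1
  have h3 : bᵀ = s • (bᵀ * (om Γ)ᵀ) := by
    conv_lhs => rw [h2, hbo]
    rw [Matrix.transpose_smul, Matrix.transpose_mul]
  have h4 : bᵀ * ψ = -(ψ * b) := eq_neg_of_add_eq_zero_left hsk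
  have h5 : bᵀ * ψ = ψ * b := by
    calc bᵀ * ψ = s • (bᵀ * ((om Γ)ᵀ * ψ)) := by
          conv_lhs => rw [h3]
          rw [Matrix.smul_mul, Matrix.mul_assoc]
      _ = s • (-(bᵀ * ψ * om Γ)) := by rw [hps, Matrix.mul_neg, Matrix.mul_assoc]
      _ = s • (ψ * b * om Γ) := by rw [h4, Matrix.neg_mul, neg_neg]
      _ = ψ * (s • (b * om Γ)) := by rw [Matrix.mul_smul, Matrix.mul_assoc]
      _ = ψ * b := by rw [← h2]
  apply psi_inj h
  rw [h5] at h4
  have h6 : (2 : ℂ) • (ψ * b) = 0 := by
    rw [two_smul]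
    nth_rewrite 1 [h4]
    exact neg_add_cancel _
  exact (smul_eq_zero.1 h6).resolve_left two_ne_zero

/-- Two commuting representations of the orthogonal Lie algebra whose sum is the spin
representation. -/
theorem t_TP (h0 : T_OM) : T_TP := by
  classical
  intro m N _ _ Γ ψ hm h4 h a b hab hc ha hb hb' hbo hsk
  -- the first relation
  have h1 : ∀ i j k, i ≠ j → j ≠ k → i ≠ k →
      (a i j + b i j) * b i k + b i k * (a i j + b i j) = 0 := by
    intro i j k hij hjk hik
    set S := a i j + b i j with hS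
    have hSS : S * S = (-(1 / 4) : ℂ) • 1 := by
      rw [hS, hab i j hij, half_sq h hij]
    have hD : S * b j k - b j k * S = b i k := by
      rw [hS, Matrix.add_mul, Matrix.mul_add, hc i j j k hij hjk, ← hb i j k hij hjk hik]
      abel
    have h2 : S * (S * b j k - b j k * S) + (S * b j k - b j k * S) * S =
        S * S * b j k - b j k * (S * S) := by
      noncomm_ring
    rw [hD, hSS, Matrix.smul_mul, Matrix.mul_smul, Matrix.one_mul, Matrix.mul_one, sub_self] at h2
    exact h2
  -- the second relation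
  have h2 : ∀ i k l, i ≠ k → i ≠ l → a i l * b i k = 0 := by
    intro i k l hik hil
    obtain ⟨j, hj⟩ : ∃ j : Fin m, j ∉ ({i, k, l} : Finset (Fin m)) := by
      by_contra hcon
      push Not at hcon
      have h6 : Fintype.card (Fin m) ≤ 3 := by
        calc Fintype.card (Fin m) = (Finset.univ : Finset (Fin m)).card := rfl
          _ ≤ ({i, k, l} : Finset (Fin m)).card := Finset.card_le_card fun k _ => hcon k
          _ ≤ 3 := Finset.card_le_three
      rw [Fintype.card_fin] at h6
      omega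
    simp only [Finset.mem_insert, Finset.mem_singleton, not_or] at hj
    obtain ⟨hji, hjk, hjl⟩ := hj
    have e1 := h1 i j k (Ne.symm hji) hjk hik
    set S := a i j + b i j with hS
    have hD : S * a j l - a j l * S = a i l := by
      rw [hS, Matrix.add_mul, Matrix.mul_add, ← hc j l i j hjl (Ne.symm hji),
        ← ha i j l (Ne.symm hji) hjl hil]
      abel
    have e2 : a j l * b i k = b i k * a j l := hc j l i k hjl hik
    have e3 := br_anti S (b i k) (a j l) e2
    rw [e1, Matrix.zero_mul, Matrix.mul_zero, sub_zero, hD, ← hc i l i k hil hik,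
      ← two_smul ℂ (a i l * b i k)] at e3
    exact (smul_eq_zero.1 e3.symm).resolve_left two_ne_zero
  -- all products are zero
  have h3 : ∀ i l k j, i ≠ l → k ≠ j → a i l * b k j = 0 := by
    intro i l k j hil hkj
    by_cases hki : k = i
    · subst hki
      exact h2 k j l hkj hil
    by_cases hji : j = i
    · subst hji
      rw [hb' j k (Ne.symm hkj), Matrix.mul_neg, h2 j k l (Ne.symm hkj) hil, neg_zero]
    have hik : i ≠ k := fun e => hki e.symm
    rw [← hb k i j hki (fun e => hji e.symm) hkj, Matrix.mul_sub, ← Matrix.mul_assoc,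
      ← Matrix.mul_assoc, hb' i k hik, Matrix.mul_neg, h2 i k l hik hil,
      h2 i j l (fun e => hji e.symm) hil, neg_zero, Matrix.zero_mul, Matrix.zero_mul, sub_self]
  -- the subspace killed by the first part
  let W : Submodule ℂ (N → ℂ) :=
    { carrier := {w | ∀ i j, i ≠ j → a i j *ᵥ w = 0}
      add_mem' := by
        intro u v hu hv i j hij
        rw [Matrix.mulVec_add, hu i j hij, hv i j hij, add_zero]
      zero_mem' := by
        intro i j _
        exact Matrix.mulVec_zero _
      smul_mem' := by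
        intro c u hu i j hij
        rw [Matrix.mulVec_smul, hu i j hij, smul_zero] }
  have hbW : ∀ k l, k ≠ l → ∀ w : N → ℂ, b k l *ᵥ w ∈ W := by
    intro k l hkl w i j hij
    rw [Matrix.mulVec_mulVec, h3 i j k l hij hkl, Matrix.zero_mulVec]
  have hst : ∀ i j, ∀ w ∈ W, (Γ i * Γ j) *ᵥ w ∈ W := by
    intro i j w hw
    by_cases hij : i = j
    · subst hij
      rwa [h.sq, Matrix.one_mulVec]
    · have e1 : Γ i * Γ j = (2 : ℂ) • (a i j + b i j) := by
        rw [hab i j hij, smul_smul]
        norm_num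
      rw [e1, Matrix.smul_mulVec, Matrix.add_mulVec, hw i j hij, zero_add]
      exact W.smul_mem _ (hbW i j hij w)
  obtain ⟨ho, han, hps⟩ := h0 m N Γ ψ hm h
  have i₀ : Fin m := ⟨0, by omega⟩
  have key : ∀ s : ℂ, s * s = -1 → (∀ w ∈ W, om Γ *ᵥ w = s • w → w = 0) → ∀ i j, i ≠ j → b i j = 0 := by
    intro s hs hW i j hij
    refine eq_zero_of_part h ho hps hs (hbo i j hij) (hsk i j hij) fun v hv => ?_
    refine hW _ (hbW i j hij v) ?_
    rw [Matrix.mulVec_mulVec, ← hbo i j hij, ← Matrix.mulVec_mulVec, hv, Matrix.mulVec_smul]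
  have hI : Complex.I * Complex.I = -1 := Complex.I_mul_I
  have hI' : (-Complex.I) * (-Complex.I) = -1 := by rw [neg_mul_neg, hI]
  rcases part h han i₀ W hst Complex.I Complex.I_ne_zero with hA | hB
  · exact Or.inr (key _ hI hA)
  rcases part h han i₀ W hst (-Complex.I) (neg_ne_zero.2 Complex.I_ne_zero) with hA' | hB'
  · exact Or.inr (key _ hI' hA')
  · left
    intro i j hij
    apply eq_zero_of_mulVec
    intro v
    have e1 : (v - Complex.I • (om Γ *ᵥ v)) ∈ W := by
      apply hB
      rw [Matrix.mulVec_sub, Matrix.mulVec_smul, Matrix.mulVec_mulVec, ho, Matrix.neg_mulVec,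
        Matrix.one_mulVec, smul_sub, smul_smul, hI]
      module
    have e2 : (v + Complex.I • (om Γ *ᵥ v)) ∈ W := by
      apply hB'
      rw [Matrix.mulVec_add, Matrix.mulVec_smul, Matrix.mulVec_mulVec, ho, Matrix.neg_mulVec,
        Matrix.one_mulVec, smul_add, smul_smul, neg_mul, hI]
      module
    have e3 : v ∈ W := by
      have e4 := W.smul_mem (1 / 2 : ℂ) (W.add_mem e1 e2)
      have e5 : (1 / 2 : ℂ) • (v - Complex.I • (om Γ *ᵥ v) + (v + Complex.I • (om Γ *ᵥ v))) = v := by
        module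
      rwa [e5] at e4
    exact e3 i j hij

end Pool.Agent.E8helper44.KF
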